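import Pool.Agent.Y811.PC.Stm6

/-!
# Project PA: primitive parameters, the thin sector without attracting cycles
-/

set_option autoImplicit false

open Complex Metric Set Filter Topology

namespace Pool.Agent.Y109.PA

open Pool.Agent.Y811.PC

/-- an analytic function which vanishes to the second order -/
theorem factor2 {F : ℂ → ℂ} {z₀ : ℂ} (hF : AnalyticAt ℂ F z₀) (h0 : F z₀ = 0)
    (h1 : deriv F z₀ = 0) : ∃ k : ℂ → ℂ, AnalyticAt ℂ k z₀ ∧ ∀ z, F z = (z - z₀) ^ 2 * k z := by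
  refine ⟨dslope (dslope F z₀) z₀, ?_, fun z => ?_⟩
  · obtain ⟨p, hp⟩ := hF
    exact ⟨_, hp.has_fpower_series_dslope_fslope.has_fpower_series_dslope_fslope⟩
  · have e1 := sub_smul_dslope F z₀ z
    have e2 := sub_smul_dslope (dslope F z₀) z₀ z
    rw [dslope_same, h1, sub_zero, smul_eq_mul] at e2
    rw [h0, sub_zero, smul_eq_mul] at e1
    rw [← e1, ← e2]
    ring

theorem dd {K : ℂ → ℂ} {z₀ : ℂ} (hK : AnalyticAt ℂ K z₀) :
    deriv (deriv fun z => (z - z₀) ^ 2 * K z) z₀ = 2 * K z₀ := by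
  have e0 : ∀ z : ℂ, HasDerivAt (fun z : ℂ => (z - z₀) ^ 2) (2 * (z - z₀)) z := by
    intro z
    have h : HasDerivAt (fun z : ℂ => (z - z₀) ^ 2) (((2 : ℕ) : ℂ) * (z - z₀) ^ (2 - 1) * 1) z :=
      ((hasDerivAt_id z).sub_const z₀).pow 2
    exact h.congr_deriv (by norm_num)
  have h1 : (deriv fun z => (z - z₀) ^ 2 * K z) =ᶠ[𝓝 z₀]
      fun z => 2 * (z - z₀) * K z + (z - z₀) ^ 2 * deriv K z := by
    filter_upwards [hK.eventually_analyticAt] with z hz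
    exact ((e0 z).mul hz.differentiableAt.hasDerivAt).deriv
  rw [h1.deriv_eq]
  have e1 : HasDerivAt (fun z : ℂ => 2 * (z - z₀)) (2 * 1) z₀ :=
    ((hasDerivAt_id z₀).sub_const z₀).const_mul 2
  have e2 := (e1.mul hK.differentiableAt.hasDerivAt).add
    ((e0 z₀).mul hK.deriv.differentiableAt.hasDerivAt)
  have e3 := e2.deriv
  refine Eq.trans e3 ?_
  ring

/-- a holomorphic square root -/
theorem exists_sqrt {k : ℂ → ℂ} {z₀ : ℂ} (hk : AnalyticAt ℂ k z₀) (h0 : k z₀ ≠ 0) :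
    ∃ s : ℂ → ℂ, AnalyticAt ℂ s z₀ ∧ s z₀ ≠ 0 ∧ ∀ᶠ z in 𝓝 z₀, s z ^ 2 = k z := by
  obtain ⟨σ, hσ⟩ : ∃ σ : ℂ, σ ^ 2 = k z₀ := IsAlgClosed.exists_pow_nat_eq _ (by norm_num)
  have hσ0 : σ ≠ 0 := by
    rintro rfl
    exact h0 (by rw [← hσ]; ring)
  have hq : AnalyticAt ℂ (fun z => k z / k z₀) z₀ := hk.div analyticAt_const h0
  have hlog : AnalyticAt ℂ (fun z => Complex.log (k z / k z₀)) z₀ := by
    apply hq.clog
    rw [div_self h0]
    exact Complex.one_mem_slitPlane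
  refine ⟨fun z => σ * Complex.exp (Complex.log (k z / k z₀) / 2), ?_, ?_, ?_⟩
  · exact analyticAt_const.mul ((hlog.div analyticAt_const two_ne_zero).cexp)
  · exact mul_ne_zero hσ0 (Complex.exp_ne_zero _)
  · filter_upwards [hk.continuousAt.eventually_ne h0] with z hz
    rw [mul_pow, hσ, ← Complex.exp_nat_mul]
    have e : ((2 : ℕ) : ℂ) * (Complex.log (k z / k z₀) / 2) = Complex.log (k z / k z₀) := by
      push_cast; ring
    rw [e, Complex.exp_log (div_ne_zero hz h0)]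
    field_simp

/-- `|1 + b w + O(w²)| ≥ 1` -/
theorem re_bound {C : ℝ} {b w l : ℂ} (h : ‖l - 1 - b * w‖ ≤ C * ‖w‖ ^ 2)
    (hw : C * ‖w‖ ^ 2 ≤ 1) (h1 : 1 ≤ ‖l‖) : -((C + ‖b‖ ^ 2) * ‖w‖ ^ 2) ≤ (b * w).re := by
  have e1 : ‖l‖ ≤ ‖1 + b * w‖ + C * ‖w‖ ^ 2 := by
    have : l = (1 + b * w) + (l - 1 - b * w) := by ring
    calc ‖l‖ = ‖(1 + b * w) + (l - 1 - b * w)‖ := by rw [← this]
      _ ≤ _ := (norm_add_le _ _).trans (by linarith)
  have e2 : 1 - C * ‖w‖ ^ 2 ≤ ‖1 + b * w‖ := by linarith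
  have e3 : (1 - C * ‖w‖ ^ 2) ^ 2 ≤ ‖1 + b * w‖ ^ 2 :=
    pow_le_pow_left₀ (by linarith) e2 2
  have e4 : ‖1 + b * w‖ ^ 2 = 1 + 2 * (b * w).re + ‖b * w‖ ^ 2 := by
    rw [← Complex.normSq_eq_norm_sq, ← Complex.normSq_eq_norm_sq, Complex.normSq_apply,
      Complex.normSq_apply]
    simp only [Complex.add_re, Complex.one_re, Complex.add_im, Complex.one_im, zero_add]
    ring
  have e5 : ‖b * w‖ ^ 2 = ‖b‖ ^ 2 * ‖w‖ ^ 2 := by rw [norm_mul, mul_pow]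
  have e6 : 0 ≤ (C * ‖w‖ ^ 2) ^ 2 := sq_nonneg _
  have e7 : 0 ≤ ‖b‖ ^ 2 * ‖w‖ ^ 2 := by positivity
  nlinarith

theorem core {gam lam k : ℂ → ℂ} {z₀ c₀ : ℂ} (hk : AnalyticAt ℂ k z₀) (hk0 : k z₀ ≠ 0)
    (hgk : ∀ z, gam z - c₀ = (z - z₀) ^ 2 * k z)
    (hl : AnalyticAt ℂ lam z₀) (hl0 : lam z₀ = 1) (hD : deriv lam z₀ ≠ 0) (V : Set ℂ)
    (hV : V ∈ 𝓝 z₀) :
    ∃ (κ' : ℂ) (K ε : ℝ), κ' ≠ 0 ∧ 0 < K ∧ 0 < ε ∧ ∀ c ∈ ball c₀ ε,
      (∀ z ∈ V, gam z = c → 1 ≤ ‖lam z‖) → |(κ' * (c - c₀)).re| ≤ K * ‖c - c₀‖ ^ (3 / 2 : ℝ) := by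
  obtain ⟨s, hs, hs0, hsk⟩ := exists_sqrt hk hk0
  set φ : ℂ → ℂ := fun z => (z - z₀) * s z with hφ
  have hφa : AnalyticAt ℂ φ z₀ := (analyticAt_id.sub analyticAt_const).mul hs
  have hφ0 : φ z₀ = 0 := by simp [hφ]
  have hφd : HasDerivAt φ (s z₀) z₀ := by
    have h := ((hasDerivAt_id z₀).sub_const z₀).mul hs.differentiableAt.hasDerivAt
    refine h.congr_deriv ?_
    simp
  have hstr : HasStrictDerivAt φ (s z₀) z₀ := by
    have := hφa.hasStrictDerivAt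
    rwa [hφd.deriv] at this
  set b : ℂ := deriv lam z₀ / s z₀ with hb
  have hb0 : b ≠ 0 := div_ne_zero hD hs0
  -- second order
  obtain ⟨k₁, hk₁, hk₁'⟩ := factor2 (F := fun z => lam z - 1 - b * φ z) (z₀ := z₀)
    ((hl.sub analyticAt_const).sub (analyticAt_const.mul hφa)) (by simp [hl0, hφ0]) (by
      have h1 : HasDerivAt (fun z => lam z - 1 - b * φ z) (deriv lam z₀ - b * s z₀) z₀ :=
        (hl.differentiableAt.hasDerivAt.sub_const 1).sub (hφd.const_mul b)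
      rw [h1.deriv, hb, div_mul_cancel₀ _ hs0, sub_self])
  -- constants
  set a : ℝ := ‖s z₀‖ / 2 with ha
  have ha0 : 0 < a := by
    have := norm_pos_iff.2 hs0
    positivity
  set C₁ : ℝ := ‖k₁ z₀‖ + 1 with hC₁
  have hC₁0 : 0 < C₁ := by positivity
  set C : ℝ := C₁ / a ^ 2 with hC
  have hC0 : 0 < C := by positivity
  have ev1 : ∀ᶠ z in 𝓝 z₀, ‖k₁ z‖ < C₁ :=
    hk₁.continuousAt.norm.eventually_lt continuousAt_const (by rw [hC₁]; linarith)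
  have ev2 : ∀ᶠ z in 𝓝 z₀, a < ‖s z‖ :=
    continuousAt_const.eventually_lt hs.continuousAt.norm (by
      rw [ha]
      have := norm_pos_iff.2 hs0
      linarith)
  have hall : ∀ᶠ z in 𝓝 z₀, z ∈ V ∧ s z ^ 2 = k z ∧ ‖k₁ z‖ < C₁ ∧ a < ‖s z‖ := by
    filter_upwards [hV, hsk, ev1, ev2] with z h1 h2 h3 h4
    exact ⟨h1, h2, h3, h4⟩
  have himg : φ '' {z | z ∈ V ∧ s z ^ 2 = k z ∧ ‖k₁ z‖ < C₁ ∧ a < ‖s z‖} ∈ 𝓝 (0 : ℂ) := by
    have h1 := hstr.map_nhds_eq hs0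
    rw [hφ0] at h1
    rw [← h1]
    exact Filter.image_mem_map hall
  obtain ⟨δ₁, hδ₁, hδ₁'⟩ := Metric.mem_nhds_iff.1 himg
  set δ : ℝ := min δ₁ (1 / (C + 1)) with hδ
  have hδ0 : 0 < δ := lt_min hδ₁ (by positivity)
  have hδC : C * δ ^ 2 ≤ 1 := by
    have h1 : δ ≤ 1 / (C + 1) := min_le_right _ _
    have h2 : δ ^ 2 ≤ (1 / (C + 1)) ^ 2 := pow_le_pow_left₀ hδ0.le h1 2
    have h3 : C * (1 / (C + 1)) ^ 2 ≤ 1 := by
      rw [div_pow, one_pow, mul_one_div, div_le_one (by positivity)]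
      nlinarith
    exact (mul_le_mul_of_nonneg_left h2 hC0.le).trans h3
  refine ⟨-I * b ^ 2, 2 * (C + ‖b‖ ^ 2) * ‖b‖, δ ^ 2, ?_, ?_, by positivity, ?_⟩
  · exact mul_ne_zero (neg_ne_zero.2 I_ne_zero) (pow_ne_zero _ hb0)
  · have := norm_pos_iff.2 hb0
    positivity
  intro c hc hrep
  obtain ⟨w, hw⟩ : ∃ w : ℂ, w ^ 2 = c - c₀ := IsAlgClosed.exists_pow_nat_eq _ (by norm_num)
  have hwn : ‖w‖ ^ 2 = ‖c - c₀‖ := by rw [← norm_pow, hw]
  have hwδ : ‖w‖ < δ := by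
    rw [mem_ball, dist_eq_norm, ← hwn] at hc
    exact lt_of_pow_lt_pow_left₀ 2 hδ0.le hc
  have key : ∀ v : ℂ, v ^ 2 = c - c₀ → ‖v‖ = ‖w‖ → -((C + ‖b‖ ^ 2) * ‖w‖ ^ 2) ≤ (b * v).re := by
    intro v hv hvn
    have hvb : v ∈ ball (0 : ℂ) δ₁ := by
      rw [mem_ball, dist_zero_right, hvn]
      exact hwδ.trans_le (min_le_left _ _)
    obtain ⟨z, ⟨hzV, hzs, hzk, hza⟩, hzv⟩ := hδ₁' hvb
    have hgz : gam z = c := by
      have h1 := hgk z
      have h2 : (z - z₀) ^ 2 * k z = v ^ 2 := by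
        rw [← hzs, ← hzv, hφ]
        ring
      rw [h2, hv] at h1
      exact sub_left_injective h1
    have hlz := hrep z hzV hgz
    have hzn : ‖z - z₀‖ * a ≤ ‖v‖ := by
      rw [← hzv, hφ, norm_mul]
      exact mul_le_mul_of_nonneg_left hza.le (norm_nonneg _)
    have hest : ‖lam z - 1 - b * v‖ ≤ C * ‖v‖ ^ 2 := by
      have h1 := hk₁' z
      simp only [hzv] at h1
      rw [h1, norm_mul, norm_pow, hC, div_mul_eq_mul_div, le_div_iff₀ (by positivity)]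
      calc ‖z - z₀‖ ^ 2 * ‖k₁ z‖ * a ^ 2 = ‖k₁ z‖ * (‖z - z₀‖ * a) ^ 2 := by ring
        _ ≤ C₁ * ‖v‖ ^ 2 := mul_le_mul hzk.le (pow_le_pow_left₀ (by positivity) hzn 2)
            (by positivity) hC₁0.le
    have := re_bound hest (by
      rw [hvn]
      exact (mul_le_mul_of_nonneg_left (pow_le_pow_left₀ (norm_nonneg _) hwδ.le 2)
        hC0.le).trans hδC) hlz
    rwa [hvn] at this
  have h1 := key w hw rfl
  have h2 := key (-w) (by rw [neg_sq, hw]) (norm_neg w)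
  have h3 : |(b * w).re| ≤ (C + ‖b‖ ^ 2) * ‖w‖ ^ 2 := by
    rw [abs_le]
    refine ⟨h1, ?_⟩
    have e : (b * -w).re = -(b * w).re := by rw [mul_neg, neg_re]
    rw [e] at h2
    linarith
  have h4 : (-I * b ^ 2 * (c - c₀)).re = 2 * (b * w).re * (b * w).im := by
    have e : -I * b ^ 2 * (c - c₀) = -I * ((b * w) * (b * w)) := by rw [← hw]; ring
    rw [e]
    simp only [neg_mul, neg_re, I_mul_re, mul_im, neg_neg]
    ring
  rw [h4, abs_mul, abs_mul, abs_two]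
  have h5 : |(b * w).im| ≤ ‖b‖ * ‖w‖ := (Complex.abs_im_le_norm _).trans (norm_mul _ _).le
  have h6 : ‖c - c₀‖ ^ (3 / 2 : ℝ) = ‖w‖ ^ 3 := by
    rw [← hwn, ← Real.rpow_natCast, ← Real.rpow_natCast, ← Real.rpow_mul (norm_nonneg _)]
    norm_num
  rw [h6]
  calc 2 * |(b * w).re| * |(b * w).im| ≤ 2 * ((C + ‖b‖ ^ 2) * ‖w‖ ^ 2) * (‖b‖ * ‖w‖) :=
        mul_le_mul (mul_le_mul_of_nonneg_left h3 two_pos.le) h5 (abs_nonneg _) (by positivity)
    _ = _ := by ring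

theorem t_UPRIM (h1 : S_IFT) (hA : S_ANA) : S_UPRIM := by
  intro d m c₀ z₀ hP hD1 hD2
  have hmu : mu d m c₀ z₀ = 1 := IsPrimitiveRoot.one_right_iff.1 hP.mul
  obtain ⟨hG, hM⟩ := hA d m c₀ z₀
  -- the curve of fixed points
  have han : AnalyticAt ℂ (fun p : ℂ × ℂ => G d m p.2 p.1 - p.1) (z₀, c₀) := by
    have e1 : AnalyticAt ℂ (fun p : ℂ × ℂ => (p.2, p.1)) (z₀, c₀) :=
      analyticAt_snd.prod analyticAt_fst
    have e2 : AnalyticAt ℂ (fun p : ℂ × ℂ => G d m p.2 p.1) (z₀, c₀) :=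
      AnalyticAt.comp (g := fun p : ℂ × ℂ => G d m p.1 p.2) (f := fun p : ℂ × ℂ => (p.2, p.1))
        hG e1
    exact e2.sub analyticAt_fst
  have hder : deriv (fun y => (fun p : ℂ × ℂ => G d m p.2 p.1 - p.1) (z₀, y)) c₀ ≠ 0 := by
    have : (fun y => (fun p : ℂ × ℂ => G d m p.2 p.1 - p.1) (z₀, y)) =
      fun y => G d m y z₀ - z₀ := rfl
    rw [this, deriv_sub_const]
    exact hD1
  obtain ⟨δ, η, gam, hδ, hη, hdiff, hgam0, hF, -⟩ := h1 (fun p : ℂ × ℂ => G d m p.2 p.1 - p.1)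
    z₀ c₀ han (by simp only [hP.fix, sub_self]) hder
  have hVn : ball z₀ δ ∈ 𝓝 z₀ := ball_mem_nhds z₀ hδ
  have hgam : AnalyticAt ℂ gam z₀ := hdiff.analyticAt hVn
  have hFix : ∀ z ∈ ball z₀ δ, G d m (gam z) z = z := fun z hz => sub_eq_zero.1 (hF z hz)
  -- derivatives
  have hgd : HasDerivAt gam (deriv gam z₀) z₀ := hgam.differentiableAt.hasDerivAt
  have hpair : HasDerivAt (fun z => (gam z, z)) (deriv gam z₀, 1) z₀ :=
    hgd.prodMk (hasDerivAt_id z₀)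
  have hGs := hG.hasStrictFDerivAt
  set G' := fderiv ℂ (fun p : ℂ × ℂ => G d m p.1 p.2) (c₀, z₀) with hG'
  have hG1 : G' (1, 0) = deriv (fun c => G d m c z₀) c₀ := by
    have e1 : HasDerivAt (fun c : ℂ => (c, z₀)) (1, 0) c₀ :=
      (hasDerivAt_id c₀).prodMk (hasDerivAt_const c₀ z₀)
    have e2 := (hGs.hasFDerivAt.comp_hasDerivAt c₀ e1).deriv
    exact e2.symm
  have hG2 : G' (0, 1) = 1 := by
    have e1 : HasDerivAt (fun z : ℂ => (c₀, z)) (0, 1) z₀ :=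
      (hasDerivAt_const z₀ c₀).prodMk (hasDerivAt_id z₀)
    have e2 := (hGs.hasFDerivAt.comp_hasDerivAt z₀ e1).deriv
    exact e2.symm.trans hmu
  have hdec : ∀ x y : ℂ, ((x, y) : ℂ × ℂ) = x • ((1, 0) : ℂ × ℂ) + y • ((0, 1) : ℂ × ℂ) := by
    intro x y
    ext <;> simp
  have hg0 : deriv gam z₀ = 0 := by
    have h2 : HasDerivAt (fun z => G d m (gam z) z) (G' (deriv gam z₀, 1)) z₀ := by
      have h3 : HasFDerivAt (fun p : ℂ × ℂ => G d m p.1 p.2) G' (gam z₀, z₀) := by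
        rw [hgam0]
        exact hGs.hasFDerivAt
      exact HasFDerivAt.comp_hasDerivAt (f := fun z => (gam z, z)) z₀ h3 hpair
    have h4 : (fun z => G d m (gam z) z) =ᶠ[𝓝 z₀] fun z => z := by
      filter_upwards [hVn] with z hz
      exact hFix z hz
    have h5 := h2.congr_of_eventuallyEq h4.symm
    have h6 := h5.unique (hasDerivAt_id' z₀)
    rw [hdec, map_add, map_smul, map_smul, hG1, hG2, smul_eq_mul, smul_eq_mul, mul_one] at h6
    have h7 : deriv gam z₀ * deriv (fun c => G d m c z₀) c₀ = 0 := by linear_combination h6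
    exact (mul_eq_zero.1 h7).resolve_right hD1
  obtain ⟨k, hk, hgk⟩ := factor2 (F := fun z => gam z - c₀) (z₀ := z₀)
    (hgam.sub analyticAt_const) (by simp [hgam0]) (by rw [deriv_sub_const]; exact hg0)
  -- the second derivative
  have hGc : AnalyticAt ℂ (G d m c₀) z₀ := by
    have e1 : AnalyticAt ℂ (fun z : ℂ => (c₀, z)) z₀ := analyticAt_const.prod analyticAt_id
    exact AnalyticAt.comp (g := fun p : ℂ × ℂ => G d m p.1 p.2) (f := fun z : ℂ => (c₀, z)) hG e1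
  obtain ⟨k₂, hk₂, hk₂'⟩ := factor2 (F := fun z => G d m c₀ z - z) (z₀ := z₀)
    (hGc.sub analyticAt_id) (by simp [hP.fix]) (by
      have e1 : HasDerivAt (fun z => G d m c₀ z - z) (mu d m c₀ z₀ - 1) z₀ :=
        (hGc.differentiableAt.hasDerivAt).sub (hasDerivAt_id' z₀)
      rw [e1.deriv, hmu, sub_self])
  have hk₂0 : k₂ z₀ ≠ 0 := by
    intro h0
    apply hD2
    have e1 : G d m c₀ = fun z => z + (z - z₀) ^ 2 * k₂ z := by
      funext z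
      rw [← hk₂' z]
      ring
    have e2 : deriv (G d m c₀) =ᶠ[𝓝 z₀] fun z => 1 + deriv (fun z => (z - z₀) ^ 2 * k₂ z) z := by
      filter_upwards [hk₂.eventually_analyticAt] with z hz
      have e3 : DifferentiableAt ℂ (fun z => (z - z₀) ^ 2 * k₂ z) z :=
        DifferentiableAt.mul (by fun_prop) hz.differentiableAt
      rw [e1]
      exact ((hasDerivAt_id' z).add e3.hasDerivAt).deriv
    rw [e2.deriv_eq, deriv_const_add]
    have e4 := dd hk₂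
    rw [h0, mul_zero] at e4
    exact e4
  have hk0 : k z₀ ≠ 0 := by
    intro h0
    obtain ⟨M, hM0, hMb⟩ := (hGs.isBigO_sub).exists_pos
    rw [Asymptotics.IsBigOWith] at hMb
    have t1 : Tendsto (fun z : ℂ => (((gam z, z), (c₀, z)) : (ℂ × ℂ) × (ℂ × ℂ))) (𝓝 z₀)
        (𝓝 ((c₀, z₀), (c₀, z₀))) := by
      have e1 : ContinuousAt (fun z : ℂ => (((gam z, z), (c₀, z)) : (ℂ × ℂ) × (ℂ × ℂ))) z₀ :=
        (hgam.continuousAt.prodMk continuousAt_id).prodMk (continuousAt_const.prodMk continuousAt_id)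
      have e2 := e1.tendsto
      rwa [hgam0] at e2
    have h2 := t1.eventually hMb
    have h3 : ∀ᶠ z in 𝓝[≠] z₀, ‖k₂ z‖ ≤ M * ‖k z‖ := by
      filter_upwards [nhdsWithin_le_nhds h2, nhdsWithin_le_nhds hVn, self_mem_nhdsWithin]
        with z hz1 hz2 hz3
      have hz0 : z - z₀ ≠ 0 := sub_ne_zero.2 hz3
      rw [hFix z hz2] at hz1
      have e1 : z - G d m c₀ z = -((z - z₀) ^ 2 * k₂ z) := by
        rw [← hk₂' z]
        ring
      have e2 : ((gam z, z) : ℂ × ℂ) - (c₀, z) = ((z - z₀) ^ 2 * k z, 0) := by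
        rw [← hgk z]
        ext <;> simp
      rw [e1, e2, norm_neg, norm_mul, Prod.norm_mk, norm_zero, max_eq_left (norm_nonneg _),
        norm_mul] at hz1
      have hp : 0 < ‖(z - z₀) ^ 2‖ := norm_pos_iff.2 (pow_ne_zero _ hz0)
      have e3 : ‖(z - z₀) ^ 2‖ * ‖k₂ z‖ ≤ ‖(z - z₀) ^ 2‖ * (M * ‖k z‖) := by
        calc _ ≤ _ := hz1
          _ = _ := by ring
      exact le_of_mul_le_mul_left e3 hp
    have t2 : Tendsto (fun z => ‖k₂ z‖) (𝓝[≠] z₀) (𝓝 ‖k₂ z₀‖) :=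
      (hk₂.continuousAt.norm.tendsto).mono_left nhdsWithin_le_nhds
    have t3 : Tendsto (fun z => M * ‖k z‖) (𝓝[≠] z₀) (𝓝 (M * ‖k z₀‖)) :=
      ((hk.continuousAt.norm.tendsto).const_mul M).mono_left nhdsWithin_le_nhds
    have h4 := le_of_tendsto_of_tendsto t2 t3 h3
    rw [h0, norm_zero, mul_zero] at h4
    exact hk₂0 (norm_le_zero_iff.1 h4)
  -- the multiplier
  have hpa : AnalyticAt ℂ (fun z => (gam z, z)) z₀ := hgam.prod analyticAt_id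
  have hM' : AnalyticAt ℂ (fun p : ℂ × ℂ => mu d m p.1 p.2) (gam z₀, z₀) := by
    rw [hgam0]
    exact hM
  have hl : AnalyticAt ℂ (fun z => mu d m (gam z) z) z₀ :=
    AnalyticAt.comp (g := fun p : ℂ × ℂ => mu d m p.1 p.2) (f := fun z => (gam z, z)) hM' hpa
  have hl0 : mu d m (gam z₀) z₀ = 1 := by rw [hgam0, hmu]
  have hlD : deriv (fun z => mu d m (gam z) z) z₀ = deriv (deriv (G d m c₀)) z₀ := by
    have hMs := hM.hasStrictFDerivAt.hasFDerivAt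
    set M' := fderiv ℂ (fun p : ℂ × ℂ => mu d m p.1 p.2) (c₀, z₀) with hM'
    have e1 : HasDerivAt (fun z : ℂ => (c₀, z)) (0, 1) z₀ :=
      (hasDerivAt_const z₀ c₀).prodMk (hasDerivAt_id z₀)
    have e2 := (hMs.comp_hasDerivAt z₀ e1).deriv
    have e3 : deriv (deriv (G d m c₀)) z₀ = M' (0, 1) := e2
    have h3 : HasFDerivAt (fun p : ℂ × ℂ => mu d m p.1 p.2) M' (gam z₀, z₀) := by
      rw [hgam0]
      exact hMs
    have e4 := (HasFDerivAt.comp_hasDerivAt (f := fun z => (gam z, z)) z₀ h3 hpair).deriv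
    rw [hg0] at e4
    rw [e3]
    exact e4
  obtain ⟨κ', K, ε, h2, h3, h4, h5⟩ := core hk hk0 hgk hl hl0 (by rw [hlD]; exact hD2)
    (ball z₀ δ) hVn
  refine ⟨κ', K, ε, h2, h3, h4, fun c hc hH => h5 c hc fun z hz hzc => ?_⟩
  by_contra hlt
  push Not at hlt
  apply hH
  refine ⟨m, z, hP.hm, ?_, ?_⟩
  · rw [← hzc]
    exact hFix z hz
  · rw [← hzc]
    exact hlt

end Pool.Agent.Y109.PA
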